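import Pool.Agent.Lib.MP_07117b_nt_h64.Defs

/-!
The number of label functions at a level with the property C (row G3b), and the properties C1, C2
from C.
-/

namespace Pool.Agent.Arb

theorem Gam.add {G A X Y : Type*} [Group G] [AddCommGroup A] [MulAction G X] [MulAction G Y]
    [AddAction A X] {p : X → Y} (hp : Fib G A X Y p) {γ γ' : Y → A}
    (h : γ ∈ Gam G p) (h' : γ' ∈ Gam G p) : γ + γ' ∈ Gam G p := by
  obtain ⟨g, hg⟩ := h
  obtain ⟨g', hg'⟩ := h'
  refine ⟨g * g', fun x => ?_⟩
  rw [mul_smul, hg', hp.comm, hg, vadd_vadd, Pi.add_apply, add_comm]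

theorem Gam.zero {G A X Y : Type*} [Group G] [AddCommGroup A] [MulAction G X] [MulAction G Y]
    [AddAction A X] (p : X → Y) : (0 : Y → A) ∈ Gam G p :=
  ⟨1, fun x => by rw [one_smul, Pi.zero_apply, zero_vadd]⟩

theorem Gam.sum {G A X Y ι : Type*} [Group G] [AddCommGroup A] [MulAction G X] [MulAction G Y]
    [AddAction A X] {p : X → Y} (hp : Fib G A X Y p) (s : Finset ι) (f : ι → Y → A)
    (h : ∀ i ∈ s, f i ∈ Gam G p) : ∑ i ∈ s, f i ∈ Gam G p := by
  classical
  induction s using Finset.induction_on with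
  | empty => rw [Finset.sum_empty]; exact Gam.zero p
  | insert a s ha ih =>
    rw [Finset.sum_insert ha]
    exact Gam.add hp (h a (Finset.mem_insert_self a s))
      (ih fun i hi => h i (Finset.mem_insert_of_mem hi))

section
variable {G L M M' : Type*} [Group G] [MulAction G L] [MulAction G M] [MulAction G M']
    [AddAction (ZMod 13) L] [AddAction V4 M'] {p : L → M} {q : M' → L}

/-- `C` implies `C1`. -/
theorem PropC.c1 (hp : Fib G (ZMod 13) L M p) (hC : PropC G p q) : PropC1 G p q := by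
  intro z s
  have h1 : z ≠ (1 : ZMod 13) +ᵥ z := fun h => absurd (hp.free 1 z h.symm) (by decide)
  obtain ⟨δ, hδ, h2, h3, h4⟩ := hC z ((1 : ZMod 13) +ᵥ z) (hp.fib _ _).symm h1 s
  refine ⟨δ, hδ, h2, fun z' hz' => h4 z' ?_ ?_⟩
  · rintro rfl
    exact hz' rfl
  · rintro rfl
    exact hz' (hp.fib _ _)

/-- `C` implies `C2`. -/
theorem PropC.c2 (hp : Fib G (ZMod 13) L M p) (hC : PropC G p q) : PropC2 G p q := by
  intro z z' hzz' hne
  obtain ⟨c, rfl⟩ := hp.trans z z' hzz'
  have hc : c ≠ 0 := by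
    rintro rfl
    exact hne (by rw [zero_vadd])
  -- a third point of the block
  obtain ⟨d, hd0, hdc⟩ : ∃ d : ZMod 13, d ≠ 0 ∧ d ≠ c := by
    by_cases h : c = 1
    · exact ⟨2, by decide, by rw [h]; decide⟩
    · exact ⟨1, by decide, fun h' => h h'.symm⟩
  have hinj : ∀ a b : ZMod 13, a +ᵥ z = b +ᵥ z → a = b := by
    intro a b hab
    have h1 : (a - b) +ᵥ z = z := by
      rw [sub_eq_neg_add, add_vadd, hab, neg_vadd_vadd]
    exact sub_eq_zero.1 (hp.free _ _ h1)
  have h1 : c +ᵥ z ≠ d +ᵥ z := fun h => hdc (hinj _ _ h).symm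
  obtain ⟨δ, hδ, h2, h3, h4⟩ := hC (c +ᵥ z) (d +ᵥ z) (by rw [hp.fib, hp.fib]) h1 (1, 0)
  refine ⟨δ, hδ, h4 z hne ?_, ?_⟩
  · intro h
    exact hd0 (hinj d 0 (by rw [zero_vadd]; exact h.symm))
  · rw [h2]
    decide

end

open Classical in
/-- row G3b (helper16) -/
theorem card_gam {G L M M' : Type*} [Group G] [MulAction G L] [MulAction G M] [MulAction G M']
    [AddAction (ZMod 13) L] [AddAction V4 M'] [Finite M] [Finite L] [Finite M']
    (p : L → M) (q : M' → L) (hp : Fib G (ZMod 13) L M p) (hq : Fib G V4 M' L q)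
    (hC : PropC G p q) : 4 ^ (12 * Nat.card M) ≤ Nat.card (Gam G (A := V4) q) := by
  have := Fintype.ofFinite M
  have := Fintype.ofFinite L
  let K : Type := {k : ZMod 13 // k ≠ 0}
  have hK : Nat.card K = 12 := by
    rw [Nat.card_eq_fintype_card]
    decide
  choose b hb using hp.surj
  let e : M × K → V4 → L → V4 := fun x s => Pi.single ((x.2 : ZMod 13) +ᵥ b x.1) s +
    Pi.single (b x.1) s
  have hpb : ∀ (k : ZMod 13) u, p (k +ᵥ b u) = u := fun k u => by rw [hp.fib, hb]
  have hne : ∀ x : M × K, (x.2 : ZMod 13) +ᵥ b x.1 ≠ b x.1 := fun x h => x.2.2 (hp.free _ _ h)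
  have he : ∀ x s, e x s ∈ Gam G (A := V4) q := by
    intro x s
    obtain ⟨δ, hδ, h2, h3, h4⟩ := hC ((x.2 : ZMod 13) +ᵥ b x.1) (b x.1)
      (by rw [hp.fib]) (hne x) s
    have : δ = e x s := by
      funext z
      by_cases h5 : z = (x.2 : ZMod 13) +ᵥ b x.1
      · subst h5
        simp only [e, Pi.add_apply, Pi.single_eq_same, Pi.single_eq_of_ne (hne x), add_zero]
        exact h2
      · by_cases h6 : z = b x.1
        · subst h6
          simp only [e, Pi.add_apply, Pi.single_eq_same, Pi.single_eq_of_ne (hne x).symm, zero_add]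
          exact h3
        · simp only [e, Pi.add_apply, Pi.single_eq_of_ne h5, Pi.single_eq_of_ne h6, add_zero]
          exact h4 z h5 h6
    rw [← this]
    exact hδ
  let F : (M × K → V4) → Gam G (A := V4) q := fun f =>
    ⟨∑ x, e x (f x), Gam.sum hq _ _ fun x _ => he x (f x)⟩
  have hval : ∀ f (x : M × K), (F f : L → V4) ((x.2 : ZMod 13) +ᵥ b x.1) = f x := by
    intro f x
    show (∑ y, e y (f y)) ((x.2 : ZMod 13) +ᵥ b x.1) = f x
    rw [Finset.sum_apply, Finset.sum_eq_single x]
    · simp only [e, Pi.add_apply, Pi.single_eq_same, Pi.single_eq_of_ne (hne x), add_zero]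
    · intro y _ hyx
      have h1 : (x.2 : ZMod 13) +ᵥ b x.1 ≠ (y.2 : ZMod 13) +ᵥ b y.1 := by
        intro h
        have h2 : x.1 = y.1 := by
          have := congrArg p h
          rwa [hpb, hpb] at this
        rw [h2] at h
        have h3 : ((x.2 : ZMod 13) - y.2) +ᵥ b y.1 = b y.1 := by
          rw [sub_eq_neg_add, add_vadd, h, neg_vadd_vadd]
        have h4 := sub_eq_zero.1 (hp.free _ _ h3)
        exact hyx (Prod.ext h2.symm (Subtype.ext h4.symm))
      have h2 : (x.2 : ZMod 13) +ᵥ b x.1 ≠ b y.1 := by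
        intro h
        have h2 : x.1 = y.1 := by
          have := congrArg p h
          rwa [hpb, hb] at this
        rw [h2] at h
        exact x.2.2 (hp.free _ _ h)
      simp only [e, Pi.add_apply, Pi.single_eq_of_ne h1, Pi.single_eq_of_ne h2, add_zero]
    · intro h
      exact absurd (Finset.mem_univ x) h
  have hF : Function.Injective F := by
    intro f g hfg
    funext x
    rw [← hval f x, ← hval g x, hfg]
  have hfin : Finite (Gam G (A := V4) q) := by
    have : Finite (L → V4) := inferInstance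
    exact Finite.of_injective _ Subtype.val_injective
  have h1 := Nat.card_le_card_of_injective F hF
  have h2 : Nat.card (M × K → V4) = 4 ^ (12 * Nat.card M) := by
    have hV : Nat.card V4 = 4 := by simp [V4]
    have hMK : Nat.card (M × K) = 12 * Nat.card M := by rw [Nat.card_prod, hK, mul_comm]
    rw [Nat.card_fun, hV, hMK]
  rw [← h2]
  exact h1

end Pool.Agent.Arb
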