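import Pool.Agent.Lib.MP_07117b_nt_h64.Stmt

/-!
The final limit: the degree estimates imply that the Minkowski dimension does not exist.
-/

namespace Pool.Agent.Arb

open Filter Topology

namespace LimitAux

/-- If `g n / 52 ^ n` converges then so does `(g (n + 1) - g n) / 52 ^ n`. -/
theorem not_tendsto {g : ℕ → ℝ} {c₁ c₂ L : ℝ} (h12 : c₁ < c₂)
    (hU : ∀ n, Odd n → g (n + 1) ≤ g n + c₁ * 52 ^ n)
    (hL : ∀ n, 0 < n → Even n → g n + c₂ * 52 ^ n ≤ g (n + 1))
    (h : Tendsto (fun n => g n / 52 ^ n) atTop (𝓝 L)) : False := by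
  have h1 : Tendsto (fun n => g (n + 1) / 52 ^ (n + 1)) atTop (𝓝 L) :=
    h.comp (tendsto_add_atTop_nat 1)
  have h2 : Tendsto (fun n => 52 * (g (n + 1) / 52 ^ (n + 1)) - g n / 52 ^ n) atTop
      (𝓝 (52 * L - L)) := (h1.const_mul 52).sub h
  have h3 : ∀ n, 52 * (g (n + 1) / 52 ^ (n + 1)) - g n / 52 ^ n = (g (n + 1) - g n) / 52 ^ n := by
    intro n
    rw [pow_succ]
    field_simp
  simp only [h3] at h2
  have h4 : 52 * L - L ≤ c₁ := by
    refine le_of_tendsto (h2.comp (tendsto_atTop_atTop.2 fun b => ⟨b, fun n hn => ?_⟩ :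
      Tendsto (fun n : ℕ => 2 * n + 1) atTop atTop)) (Eventually.of_forall fun n => ?_)
    · show b ≤ 2 * n + 1
      omega
    · show (g (2 * n + 1 + 1) - g (2 * n + 1)) / 52 ^ (2 * n + 1) ≤ c₁
      rw [div_le_iff₀ (by positivity)]
      have := hU (2 * n + 1) ⟨n, rfl⟩
      linarith
  have h5 : c₂ ≤ 52 * L - L := by
    refine ge_of_tendsto (h2.comp (tendsto_atTop_atTop.2 fun b => ⟨b, fun n hn => ?_⟩ :
      Tendsto (fun n : ℕ => 2 * (n + 1)) atTop atTop)) (Eventually.of_forall fun n => ?_)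
    · show b ≤ 2 * (n + 1)
      omega
    · show c₂ ≤ (g (2 * (n + 1) + 1) - g (2 * (n + 1))) / 52 ^ (2 * (n + 1))
      rw [le_div_iff₀ (by positivity)]
      have := hL (2 * (n + 1)) (by omega) ⟨n + 1, by ring⟩
      linarith
  linarith

theorem geom (n : ℕ) : (∑ i ∈ Finset.range n, 52 ^ i) * 51 + 1 = 52 ^ n := by
  induction n with
  | zero => simp
  | succ n ih =>
    rw [Finset.sum_range_succ, add_mul, pow_succ]
    omega

end LimitAux

open LimitAux

/-- The degree estimates imply that the lower dimension is smaller than the upper dimension. -/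
theorem lower_lt_upper {K : Type*} [Field K] (p q : Polynomial K) (α : OnePoint K)
    (hd : max p.natDegree q.natDegree = 52)
    (hpos : ∀ n, 0 < Module.finrank K (levelField p q α n))
    (hU : ∀ n, Odd n → Module.finrank K (levelField p q α (n + 1)) ≤
      Module.finrank K (levelField p q α n) * (13 * 2 ^ 13) ^ (52 ^ n))
    (hL : ∀ n, 0 < n → Even n → Module.finrank K (levelField p q α n) * 2 ^ (24 * 52 ^ n) ≤
      Module.finrank K (levelField p q α (n + 1)))
    (hB : ∃ B : ℕ, ∀ n, Module.finrank K (levelField p q α n) ≤ B ^ (52 ^ n)) :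
    (∃ c : ℝ, ∀ n, 0 ≤ ratio p q α n ∧ ratio p q α n ≤ c) ∧
      lowerDim p q α < upperDim p q α := by
  obtain ⟨B, hB⟩ := hB
  set N : ℕ → ℕ := fun n => Module.finrank K (levelField p q α n) with hN
  set F : ℝ := Real.log ((Nat.factorial 52 : ℕ) : ℝ) with hF
  have hfac : 1 < Nat.factorial 52 := by decide
  have hFpos : 0 < F := Real.log_pos (by exact_mod_cast hfac)
  set s : ℕ → ℕ := fun n => ∑ i ∈ Finset.range n, 52 ^ i with hs
  have hratio : ∀ n, ratio p q α n = Real.log (N n) / (s n * F) := by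
    intro n
    unfold ratio
    rw [hd, Nat.cast_pow, Real.log_pow]
  have hsn : ∀ n, (s n : ℝ) * 51 + 1 = 52 ^ n := by
    intro n
    exact_mod_cast geom n
  have hN1 : ∀ n, (1 : ℝ) ≤ N n := fun n => by exact_mod_cast hpos n
  have hlog0 : ∀ n, 0 ≤ Real.log (N n) := fun n => Real.log_nonneg (hN1 n)
  have hBpos : ∀ n, 0 < B ^ (52 ^ n) := fun n => lt_of_lt_of_le (hpos n) (hB n)
  have hB0 : 0 < B := by
    have := hBpos 0
    simpa using this
  have hlogB : ∀ n, Real.log (N n) ≤ 52 ^ n * Real.log B := by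
    intro n
    have h1 : (N n : ℝ) ≤ (B : ℝ) ^ (52 ^ n) := by exact_mod_cast hB n
    have h2 := Real.log_le_log (by linarith [hN1 n]) h1
    rw [Real.log_pow] at h2
    exact_mod_cast h2
  have hlogB0 : 0 ≤ Real.log (B : ℝ) := Real.log_nonneg (by exact_mod_cast hB0)
  have hbound : ∀ n, 0 ≤ ratio p q α n ∧ ratio p q α n ≤ 52 * Real.log B / F := by
    intro n
    rw [hratio]
    refine ⟨div_nonneg (hlog0 n) (by positivity), ?_⟩
    rcases Nat.eq_zero_or_pos n with h | h
    · subst h
      have : s 0 = 0 := by simp [hs]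
      rw [this]
      simp
      positivity
    · have hs1 : (1 : ℝ) ≤ s n := by
        have h1 : 1 ≤ s n := by
          have h2 := geom n
          have h3 : 52 ^ 1 ≤ 52 ^ n := Nat.pow_le_pow_right (by norm_num) h
          have h4 : s n * 51 + 1 = 52 ^ n := h2
          omega
        exact_mod_cast h1
      rw [div_le_div_iff₀ (by positivity) hFpos]
      have h5 := hlogB n
      have h6 := hsn n
      have h7 : (52 : ℝ) ^ n ≤ 52 * s n := by linarith
      calc Real.log (N n) * F ≤ (52 ^ n * Real.log B) * F := by gcongr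
        _ ≤ (52 * s n * Real.log B) * F := by gcongr
        _ = 52 * Real.log B * (s n * F) := by ring
  refine ⟨⟨_, hbound⟩, ?_⟩
  -- the dimensions
  have hbU : IsBoundedUnder (· ≤ ·) atTop (fun n => ratio p q α n) :=
    isBoundedUnder_of ⟨_, fun n => (hbound n).2⟩
  have hbL : IsBoundedUnder (· ≥ ·) atTop (fun n => ratio p q α n) :=
    isBoundedUnder_of ⟨0, fun n => (hbound n).1⟩
  have hle : lowerDim p q α ≤ upperDim p q α := liminf_le_limsup hbU hbL
  refine lt_of_le_of_ne hle fun heq => ?_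
  have ht : Tendsto (fun n => ratio p q α n) atTop (𝓝 (lowerDim p q α)) :=
    tendsto_of_liminf_eq_limsup rfl heq.symm hbU hbL
  -- convergence of `log N n / 52 ^ n`
  have ht2 : Tendsto (fun n : ℕ => (s n : ℝ) * F / 52 ^ n) atTop (𝓝 (F / 51)) := by
    have h1 : Tendsto (fun n : ℕ => ((1 : ℝ) / 52) ^ n) atTop (𝓝 0) :=
      tendsto_pow_atTop_nhds_zero_of_lt_one (by norm_num) (by norm_num)
    have h2 : Tendsto (fun n : ℕ => (1 - ((1 : ℝ) / 52) ^ n) * (F / 51)) atTop
        (𝓝 ((1 - 0) * (F / 51))) := (h1.const_sub 1).mul_const _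
    rw [sub_zero, one_mul] at h2
    refine h2.congr fun n => ?_
    have h3 := hsn n
    have h4 : (s n : ℝ) = (52 ^ n - 1) / 51 := by linarith
    rw [h4, one_div, inv_pow]
    have h5 : (52 : ℝ) ^ n ≠ 0 := by positivity
    field_simp
  have ht3 : Tendsto (fun n : ℕ => Real.log (N n) / 52 ^ n) atTop
      (𝓝 (lowerDim p q α * (F / 51))) := by
    refine (ht.mul ht2).congr' ?_
    filter_upwards [eventually_ge_atTop 1] with n hn
    have hs1 : (0 : ℝ) < s n := by
      have h1 : 1 ≤ s n := by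
        have h2 := geom n
        have h3 : 52 ^ 1 ≤ 52 ^ n := Nat.pow_le_pow_right (by norm_num) hn
        have h4 : s n * 51 + 1 = 52 ^ n := h2
        omega
      exact_mod_cast h1
    rw [hratio]
    have h6 : (s n : ℝ) * F ≠ 0 := by positivity
    rw [div_mul_div_comm, mul_comm (Real.log _), mul_div_mul_left _ _ h6]
  refine not_tendsto (g := fun n => Real.log (N n)) (c₁ := Real.log (13 * 2 ^ 13))
    (c₂ := Real.log (2 ^ 24)) ?_ ?_ ?_ ht3
  · exact Real.log_lt_log (by norm_num) (by norm_num)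
  · intro n hn
    have h1 : (N (n + 1) : ℝ) ≤ N n * (13 * 2 ^ 13) ^ (52 ^ n) := by exact_mod_cast hU n hn
    have h2 := Real.log_le_log (by linarith [hN1 (n + 1)]) h1
    rw [Real.log_mul (by linarith [hN1 n]) (by positivity), Real.log_pow] at h2
    push_cast at h2
    linarith
  · intro n hn0 hn
    have h1 : (N n : ℝ) * 2 ^ (24 * 52 ^ n) ≤ N (n + 1) := by exact_mod_cast hL n hn0 hn
    have hNn : (0 : ℝ) < N n := by linarith [hN1 n]
    have h2 := Real.log_le_log (by positivity) h1
    rw [Real.log_mul hNn.ne' (by positivity), pow_mul, Real.log_pow] at h2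
    push_cast at h2
    linarith

end Pool.Agent.Arb
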