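import Pool.Agent.Lib.MP_07117b_nt_h16.CardGam
import Pool.Agent.Lib.MP_07117b_nt_h62.Step1
import Pool.Agent.Lib.MP_07117b_nt_h49.Step2

/-!
The induction along the tower (row G3a).
-/

namespace Pool.Agent.Arb

/-- row G3a (helper16) -/
theorem tower {G : Type*} [Group G] (M L : ℕ → Type*)
    [∀ j, MulAction G (M j)] [∀ j, MulAction G (L j)]
    [∀ j, AddAction (ZMod 13) (L j)] [∀ j, AddAction V4 (M (j + 1))]
    [∀ j, Finite (M j)] [∀ j, Finite (L j)]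
    (p : ∀ j, L j → M j) (q : ∀ j, M (j + 1) → L j)
    (hp : ∀ j, Fib G (ZMod 13) (L j) (M j) (p j))
    (hq : ∀ j, Fib G V4 (M (j + 1)) (L j) (q j))
    (hT : Tr G (M 0)) (hA : PropA G (p 0)) (h1 : PropC1 G (p 0) (q 0))
    (h2 : PropC2 G (p 0) (q 0))
    (hE : ∀ j, HypE G (p j) (q j) (p (j + 1)))
    (hP : ∀ j, HypP G (p (j + 1)) (q (j + 1))) (j : ℕ) :
    PropC G (p (j + 1)) (q (j + 1)) := by
  have key : ∀ j, Tr G (M (j + 1)) ∧ PropA G (p (j + 1)) ∧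
      PropC G (p (j + 1)) (q (j + 1)) := by
    intro j
    induction j with
    | zero =>
      obtain ⟨hT1, hA1, hB1⟩ := step2 (p 0) (q 0) (p 1) (hp 0) (hq 0) (hp 1) hT hA h1 h2 (hE 0)
      exact ⟨hT1, hA1, step1 (p 1) (q 1) (hp 1) (hq 1) hA1 hB1 hT1 (hP 0)⟩
    | succ j ih =>
      obtain ⟨hTj, hAj, hCj⟩ := ih
      obtain ⟨hT1, hA1, hB1⟩ := step2 (p (j + 1)) (q (j + 1)) (p (j + 2)) (hp (j + 1))
        (hq (j + 1)) (hp (j + 2)) hTj hAj (hCj.c1 (hp (j + 1))) (hCj.c2 (hp (j + 1))) (hE (j + 1))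
      exact ⟨hT1, hA1, step1 (p (j + 2)) (q (j + 2)) (hp (j + 2)) (hq (j + 2)) hA1 hB1 hT1
        (hP (j + 1))⟩
  exact (key j).2.2

end Pool.Agent.Arb
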